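import Mathlib

/-!
# MP_d81877_al, frame: abstract part

From a representation `ρ` of a finite group `G` on a finite dimensional space `T` over an
algebraically closed field `k` of characteristic `2`, with a bilinear form `B` adjoint with
respect to a map `τ : G → G`, a vector `v₀`, the span `D` of its orbit, and vectors
`γ_j`, `R_i` with `g γ_j - γ_j ∈ D + D^⊥`, `R_i ∈ D ∩ D^⊥`, `B R_i γ_j = δ_ij`, we obtain a
finite group with a faithful irreducible module whose first cohomology has dimension at
least the number of the `γ_j`.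
-/

namespace Pool.Agent.MP_d81877_alF

open groupCohomology

/-- There is a finite group with a faithful irreducible finite dimensional module over an
algebraically closed field with first cohomology of dimension at least `r`. -/
def Big (r : ℕ) : Prop :=
  ∃ (k : Type) (_ : Field k) (_ : IsAlgClosed k) (G : Type) (_ : Group G) (_ : Finite G)
    (V : Type) (_ : AddCommGroup V) (_ : Module k V) (_ : FiniteDimensional k V)
    (ρ : Representation k G V), Function.Injective ρ ∧ ρ.IsIrreducible ∧
      r ≤ Module.finrank k (groupCohomology.H1 (Rep.of ρ))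

section H1

variable {k : Type} [Field k] {G : Type} [Group G] [Finite G]
  {L : Type} [AddCommGroup L] [Module k L] [FiniteDimensional k L]

/-- Cocycles which are independent modulo coboundaries bound `dim H^1` from below. -/
theorem le_finrank_H1 (σ : Representation k G L) {r : ℕ} (f : Fin r → G → L)
    (hf : ∀ j g h, f j (g * h) = σ g (f j h) + f j g)
    (hind : ∀ c : Fin r → k, (∃ l : L, ∀ g, ∑ j, c j • f j g = σ g l - l) → c = 0) :
    r ≤ Module.finrank k (groupCohomology.H1 (Rep.of σ)) := by
  classical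
  let A := Rep.of σ
  -- the cocycles
  let z : Fin r → cocycles₁ A := fun j => ⟨f j, (mem_cocycles₁_iff (A := A) (f j)).2 (hf j)⟩
  let Φ : (Fin r → k) →ₗ[k] cocycles₁ A := Fintype.linearCombination k z
  let Ψ : (Fin r → k) →ₗ[k] H1 A := (H1π A).hom ∘ₗ Φ
  have hinj : Function.Injective Ψ := by
    rw [← LinearMap.ker_eq_bot, LinearMap.ker_eq_bot']
    intro c hc
    have h1 : H1π A (Φ c) = 0 := hc
    rw [H1π_eq_zero_iff] at h1
    obtain ⟨l, hl⟩ := h1
    apply hind c
    refine ⟨l, fun g => ?_⟩
    have h2 : (d₀₁ A).hom l g = (Φ c : G → L) g := congrFun hl g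
    have h3 : (d₀₁ A).hom l g = σ g l - l := by
      simp [d₀₁, A]
    rw [← h3, h2]
    have h4 : (Φ c : cocycles₁ A) = ∑ j, c j • z j := Fintype.linearCombination_apply k z c
    have h5 : ((Φ c : cocycles₁ A) : G → L) = ∑ j, c j • ((z j : cocycles₁ A) : G → L) := by
      have : (Φ c).1 = ∑ j, c j • (z j).1 := by
        rw [h4, Submodule.coe_sum]
        rfl
      exact this
    rw [h5]
    simp only [Finset.sum_apply, Pi.smul_apply]
    rfl
  have : FiniteDimensional k (G → L) := by
    have := Fintype.ofFinite G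
    infer_instance
  have : FiniteDimensional k (cocycles₁ A) := by
    have : FiniteDimensional k (G → A) := ‹FiniteDimensional k (G → L)›
    infer_instance
  have : FiniteDimensional k (H1 A) := by
    have hs : Function.Surjective (H1π A).hom := by
      intro x
      induction x using H1_induction_on with
      | h x => exact ⟨x, rfl⟩
    exact Module.Finite.of_surjective (H1π A).hom hs
  have := LinearMap.finrank_le_finrank_of_injective hinj
  simpa using this

end H1

section Quot

variable {k : Type} [Field k] [CharP k 2] [IsAlgClosed k] {G : Type} [Group G] [Finite G]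
  {L : Type} [AddCommGroup L] [Module k L] [FiniteDimensional k L]

omit [IsAlgClosed k] [Finite G] [FiniteDimensional k L] in
/-- A cocycle vanishes on elements of odd order acting trivially. -/
theorem cocycle_eq_zero (σ : Representation k G L) (f : G → L)
    (hf : ∀ g h, f (g * h) = σ g (f h) + f g) (g : G) (hg : σ g = 1)
    (ho : Odd (orderOf g)) : f g = 0 := by
  have h1 : f 1 = 0 := by
    have := hf 1 1
    simpa using this
  have hn : ∀ n : ℕ, f (g ^ n) = n • f g := by
    intro n
    induction n with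
    | zero => simp [h1]
    | succ n ih => rw [pow_succ', hf, hg, ih, succ_nsmul]; simp
  obtain ⟨m, hm⟩ := ho
  have h2 := hn (orderOf g)
  rw [pow_orderOf_eq_one, h1, hm] at h2
  have h3 : ((2 * m + 1 : ℕ) : k) • f g = 0 := by
    rw [Nat.cast_smul_eq_nsmul]
    exact h2.symm
  have h4 : ((2 * m + 1 : ℕ) : k) = 1 := by
    push_cast
    have : (2 : k) = 0 := by
      have := CharP.cast_eq_zero k 2
      exact_mod_cast this
    rw [this]; ring
  rw [h4, one_smul] at h3
  exact h3

/-- Passing to the faithful quotient. -/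
theorem big_of_cocycles (σ : Representation k G L) (hirr : σ.IsIrreducible)
    (hker : ∀ g, σ g = 1 → Odd (orderOf g)) {r : ℕ} (f : Fin r → G → L)
    (hf : ∀ j g h, f j (g * h) = σ g (f j h) + f j g)
    (hind : ∀ c : Fin r → k, (∃ l : L, ∀ g, ∑ j, c j • f j g = σ g l - l) → c = 0) :
    Big r := by
  classical
  let K : Subgroup G := MonoidHom.ker σ
  let σ' : Representation k (G ⧸ K) L := QuotientGroup.lift K σ le_rfl
  have hσ' : ∀ g : G, σ' (g : G ⧸ K) = σ g := fun g => rfl
  have hinj : Function.Injective σ' := by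
    have : MonoidHom.ker σ' = ⊥ := by
      rw [Subgroup.eq_bot_iff_forall]
      intro x
      induction x using QuotientGroup.induction_on with
      | H g =>
        intro hg
        rw [MonoidHom.mem_ker, hσ'] at hg
        exact (QuotientGroup.eq_one_iff g).2 hg
    exact (MonoidHom.ker_eq_bot_iff σ').1 this
  have hirr' : σ'.IsIrreducible := by
    -- same submodules
    let e : Subrepresentation σ ≃o Subrepresentation σ' :=
      { toFun := fun M => ⟨M.toSubmodule, fun g => by
          induction g using QuotientGroup.induction_on with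
          | H g => exact M.apply_mem_toSubmodule g⟩
        invFun := fun M => ⟨M.toSubmodule, fun g => M.apply_mem_toSubmodule (g : G ⧸ K)⟩
        left_inv := fun M => rfl
        right_inv := fun M => rfl
        map_rel_iff' := Iff.rfl }
    exact (OrderIso.isSimpleOrder_iff e).1 hirr
  have hfK : ∀ j, ∀ g ∈ K, f j g = 0 := fun j g hg =>
    cocycle_eq_zero σ (f j) (hf j) g hg (hker g hg)
  let f' : Fin r → (G ⧸ K) → L := fun j => Quotient.lift (f j) (by
    intro a b hab
    have hab' : a⁻¹ * b ∈ K := QuotientGroup.leftRel_apply.1 hab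
    have : f j (a * (a⁻¹ * b)) = σ a (f j (a⁻¹ * b)) + f j a := hf j _ _
    rw [hfK j _ hab', map_zero, zero_add, mul_inv_cancel_left] at this
    exact this.symm)
  have hf'm : ∀ j (g : G), f' j (g : G ⧸ K) = f j g := fun j g => rfl
  have h := le_finrank_H1 σ' f' (by
      intro j g h
      induction g using QuotientGroup.induction_on with
      | H g =>
        induction h using QuotientGroup.induction_on with
        | H h =>
          rw [← QuotientGroup.mk_mul, hf'm, hf'm, hf'm, hσ', hf]) (by
      intro c hc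
      obtain ⟨l, hl⟩ := hc
      exact hind c ⟨l, fun g => by have := hl (g : G ⧸ K); simpa only [hf'm, hσ'] using this⟩)
  exact ⟨k, inferInstance, inferInstance, G ⧸ K, inferInstance, inferInstance, L, inferInstance,
    inferInstance, inferInstance, σ', hinj, hirr', h⟩

end Quot

section Frame

variable {k : Type} [Field k] [CharP k 2] [IsAlgClosed k] {G : Type} [Group G] [Finite G]
  {T : Type} [AddCommGroup T] [Module k T] [FiniteDimensional k T]

/-- The span of the orbit of `v₀`. -/
def orbitSpan (ρ : Representation k G T) (v₀ : T) : Submodule k T :=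
  Submodule.span k (Set.range fun g => ρ g v₀)

omit [CharP k 2] [IsAlgClosed k] [Finite G] [FiniteDimensional k T] in
theorem orbitSpan_stable (ρ : Representation k G T) (v₀ : T) (g : G) {d : T}
    (hd : d ∈ orbitSpan ρ v₀) : ρ g d ∈ orbitSpan ρ v₀ := by
  induction hd using Submodule.span_induction with
  | mem x hx =>
    obtain ⟨h, rfl⟩ := hx
    apply Submodule.subset_span
    refine ⟨g * h, ?_⟩
    simp [map_mul]
  | zero => simp
  | add x y _ _ hx hy => rw [map_add]; exact add_mem hx hy
  | smul a x _ hx => rw [map_smul]; exact Submodule.smul_mem _ _ hx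

omit [CharP k 2] [IsAlgClosed k] [Finite G] [FiniteDimensional k T] in
theorem mem_orbitSpan_self (ρ : Representation k G T) (v₀ : T) : v₀ ∈ orbitSpan ρ v₀ := by
  apply Submodule.subset_span
  exact ⟨1, by simp⟩

/-- **The frame.** -/
theorem frame (ρ : Representation k G T) (B : T →ₗ[k] T →ₗ[k] k) (τ : G → G)
    (hτ : ∀ g h, τ (g * h) = τ h * τ g) (hττ : ∀ g, τ (τ g) = g)
    (hB : ∀ g u v, B (ρ g u) v = B u (ρ (τ g) v)) (v₀ : T)
    (hP : ∀ M : Submodule k T, (∀ g, ∀ m ∈ M, ρ g m ∈ M) →
      ∀ m ∈ M, m ∈ orbitSpan ρ v₀ → B m v₀ ≠ 0 → v₀ ∈ M)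
    (h00 : B v₀ v₀ ≠ 0)
    (hN : ∃ (g : G) (c : k), ρ g v₀ = c • v₀ ∧ c ≠ 1)
    (hK : ∀ g, (∀ x y, B v₀ (ρ (x * g * y) v₀) = B v₀ (ρ (x * y) v₀)) → Odd (orderOf g))
    {r : ℕ} (γ R : Fin r → T)
    (hγ : ∀ j g, ∃ d ∈ orbitSpan ρ v₀, ∀ d' ∈ orbitSpan ρ v₀,
      B (ρ g (γ j) - γ j - d) d' = 0)
    (hR : ∀ i, R i ∈ orbitSpan ρ v₀)
    (hR' : ∀ i, ∀ d ∈ orbitSpan ρ v₀, B d (R i) = 0)
    (hpair : ∀ i j, B (γ j) (R i) = if i = j then 1 else 0) : Big r := by
  classical
  set D := orbitSpan ρ v₀ with hD
  -- functions on `G`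
  let Φ : T →ₗ[k] (G → k) := LinearMap.pi fun x => B.flip (ρ x v₀)
  have hΦ : ∀ u x, Φ u x = B u (ρ x v₀) := fun u x => rfl
  let S : G → ((G → k) →ₗ[k] (G → k)) := fun g => LinearMap.funLeft k k fun x => τ g * x
  have hS : ∀ g f x, S g f x = f (τ g * x) := fun g f x => rfl
  have hτ1 : τ 1 = 1 := by
    have := hτ 1 1
    simpa using this
  have hΦS : ∀ g u, Φ (ρ g u) = S g (Φ u) := by
    intro g u
    ext x
    rw [hΦ, hS, hΦ, hB, map_mul]
    rfl
  let L : Submodule k (G → k) := D.map Φ
  have hLS : ∀ g, ∀ f ∈ L, S g f ∈ L := by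
    rintro g _ ⟨d, hd, rfl⟩
    rw [← hΦS]
    exact ⟨_, orbitSpan_stable ρ v₀ g hd, rfl⟩
  let σ : Representation k G L :=
    { toFun := fun g => (S g).restrict (hLS g)
      map_one' := by
        ext f x
        change S 1 f.1 x = f.1 x
        rw [hS, hτ1, one_mul]
      map_mul' := fun g h => by
        ext f x
        change S (g * h) f.1 x = S g (S h f.1) x
        rw [hS, hS, hS, hτ, mul_assoc] }
  have hσ : ∀ g (f : L), ((σ g f : L) : G → k) = S g f.1 := fun g f => rfl
  -- transfer of membership from functions to `T`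
  have hΦ0 : ∀ u, (∀ x, B u (ρ x v₀) = 0) → Φ u = 0 := fun u hu => by
    ext x; exact hu x
  have hv₀L : Φ v₀ ∈ L := ⟨v₀, mem_orbitSpan_self ρ v₀, rfl⟩
  have hv₀ne : (⟨Φ v₀, hv₀L⟩ : L) ≠ 0 := by
    intro h
    have h1 : Φ v₀ = 0 := congrArg Subtype.val h
    have h2 := congrFun h1 1
    rw [hΦ, map_one] at h2
    exact h00 h2
  -- irreducibility
  have hirr : σ.IsIrreducible := by
    have : Nontrivial (Subrepresentation σ) := by
      refine ⟨⊥, ⊤, ?_⟩
      intro h
      have h1 : (⟨Φ v₀, hv₀L⟩ : L) ∈ (⊤ : Subrepresentation σ) := by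
        trivial
      rw [← h] at h1
      exact hv₀ne h1
    refine ⟨fun M => ?_⟩
    by_cases hM : ∃ f ∈ M, f ≠ 0
    · right
      obtain ⟨f, hfM, hf0⟩ := hM
      obtain ⟨d, hd, hdf⟩ := f.2
      -- some value is nonzero
      have hx : ∃ x, f.1 x ≠ 0 := by
        by_contra hcon
        push Not at hcon
        apply hf0
        ext x
        exact hcon x
      obtain ⟨x, hx⟩ := hx
      -- the preimage of `M` in `T`
      let M' : Submodule k T :=
        { carrier := {u | ∃ m ∈ M, (m : L).1 = Φ u}
          add_mem' := by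
            rintro u u' ⟨m, hm, hmu⟩ ⟨m', hm', hmu'⟩
            refine ⟨m + m', M.toSubmodule.add_mem hm hm', ?_⟩
            rw [map_add, ← hmu, ← hmu']
            rfl
          zero_mem' := ⟨0, M.toSubmodule.zero_mem, by rw [map_zero]; rfl⟩
          smul_mem' := by
            rintro a u ⟨m, hm, hmu⟩
            refine ⟨a • m, M.toSubmodule.smul_mem a hm, ?_⟩
            rw [map_smul, ← hmu]
            rfl }
      have hM'S : ∀ g, ∀ m ∈ M', ρ g m ∈ M' := by
        rintro g u ⟨m, hm, hmu⟩
        refine ⟨σ g m, M.apply_mem_toSubmodule g hm, ?_⟩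
        rw [hσ, hmu, hΦS]
      have hdM' : d ∈ M' := ⟨f, hfM, hdf.symm⟩
      have hv₀M' : v₀ ∈ M' := by
        apply hP M' hM'S (ρ (τ x) d) (hM'S _ _ hdM') (orbitSpan_stable ρ v₀ _ hd)
        rw [hB, hττ, ← hΦ, hdf]
        exact hx
      have hDM' : D ≤ M' := by
        rw [hD]
        apply Submodule.span_le.2
        rintro _ ⟨g, rfl⟩
        exact hM'S g _ hv₀M'
      refine eq_top_iff.2 ?_
      intro l _
      obtain ⟨d', hd', hdl⟩ := l.2
      obtain ⟨m, hm, hmd⟩ := hDM' hd'
      have : l = m := by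
        ext x
        rw [← hdl, hmd]
      rw [this]
      exact hm
    · left
      push Not at hM
      refine eq_bot_iff.2 ?_
      intro m hm
      exact hM m hm
  -- kernel
  have hker : ∀ g, σ g = 1 → Odd (orderOf g) := by
    intro g hg
    have h1 : ∀ x y, B v₀ (ρ (x * τ g * y) v₀) = B v₀ (ρ (x * y) v₀) := by
      intro x y
      have hmem : Φ (ρ (τ x) v₀) ∈ L := ⟨_, orbitSpan_stable ρ v₀ _ (mem_orbitSpan_self ρ v₀), rfl⟩
      have h2 : ((σ g ⟨_, hmem⟩ : L) : G → k) y = Φ (ρ (τ x) v₀) y := by
        rw [hg]; rfl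
      rw [hσ] at h2
      change B (ρ (τ x) v₀) (ρ (τ g * y) v₀) = B (ρ (τ x) v₀) (ρ y v₀) at h2
      rw [hB, hB, hττ] at h2
      rw [mul_assoc, map_mul, map_mul ρ x y]
      exact h2
    have h2 := hK (τ g) h1
    -- orders of `g` and `τ g` agree
    have hpow : ∀ n : ℕ, τ (g ^ n) = (τ g) ^ n := by
      intro n
      induction n with
      | zero => simp [hτ1]
      | succ n ih => rw [pow_succ, hτ, ih, pow_succ']
    have hord : orderOf (τ g) = orderOf g := by
      apply orderOf_eq_orderOf_iff.2
      intro n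
      constructor
      · intro h
        rw [← hpow] at h
        have := congrArg τ h
        rwa [hττ, hτ1] at this
      · intro h
        rw [← hpow, h, hτ1]
    rwa [hord] at h2
  -- the cocycles
  have hmem : ∀ j g, Φ (ρ g (γ j) - γ j) ∈ L := by
    intro j g
    obtain ⟨d, hd, hd'⟩ := hγ j g
    refine ⟨d, hd, ?_⟩
    have h1 : Φ (ρ g (γ j) - γ j - d) = 0 := by
      apply hΦ0
      intro x
      exact hd' _ (Submodule.subset_span ⟨x, rfl⟩)
    rw [map_sub, sub_eq_zero] at h1
    exact h1.symm
  let f : Fin r → G → L := fun j g => ⟨_, hmem j g⟩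
  have hfv : ∀ j g, (f j g : G → k) = Φ (ρ g (γ j) - γ j) := fun j g => rfl
  refine big_of_cocycles σ hirr hker f ?_ ?_
  · intro j g h
    apply Subtype.ext
    change (f j (g * h) : G → k) = (σ g (f j h) : G → k) + (f j g : G → k)
    rw [hσ, hfv, hfv, hfv, ← hΦS, ← map_add]
    congr 1
    rw [map_sub, map_mul]
    change ρ g (ρ h (γ j)) - γ j = ρ g (ρ h (γ j)) - ρ g (γ j) + (ρ g (γ j) - γ j)
    abel
  · rintro c ⟨l, hl⟩
    obtain ⟨d, hd, hdl⟩ := l.2
    let e : T := ∑ j, c j • γ j - d
    have he : ∀ g, Φ (ρ g e - e) = 0 := by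
      intro g
      have h1 := congrArg (Subtype.val) (hl g)
      have h2 : (∑ j, c j • (f j g : G → k)) = S g l.1 - l.1 := by
        have h3 : ((∑ j, c j • f j g : L) : G → k) = ∑ j, c j • (f j g : G → k) := by
          simp
        rw [← h3, hl g]
        rfl
      simp only [hfv] at h2
      rw [← hdl, ← hΦS, ← map_sub] at h2
      simp only [← map_smul, ← map_sum] at h2
      have h4 : ρ g e - e = (∑ j, c j • (ρ g (γ j) - γ j)) - (ρ g d - d) := by
        simp only [e, map_sub, map_sum, map_smul, smul_sub, Finset.sum_sub_distrib]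
        abel
      rw [h4, map_sub, h2, sub_self]
    -- `B e` vanishes on the orbit
    have he1 : ∀ g x, B e (ρ g (ρ x v₀)) = B e (ρ x v₀) := by
      intro g x
      have h1 := congrFun (he (τ g)) x
      rw [hΦ, map_sub] at h1
      simp only [LinearMap.sub_apply, Pi.zero_apply, sub_eq_zero] at h1
      rw [hB, hττ] at h1
      exact h1
    have he2 : B e v₀ = 0 := by
      obtain ⟨g, a, hga, ha⟩ := hN
      have h1 := he1 g 1
      rw [map_one] at h1
      change B e (ρ g v₀) = B e v₀ at h1
      rw [hga, map_smul, smul_eq_mul] at h1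
      have h2 : (a - 1) * B e v₀ = 0 := by rw [sub_mul, h1]; ring
      rcases mul_eq_zero.1 h2 with h3 | h3
      · exact absurd (sub_eq_zero.1 h3) ha
      · exact h3
    have he3 : ∀ d' ∈ D, B e d' = 0 := by
      intro d' hd'
      induction hd' using Submodule.span_induction with
      | mem x hx =>
        obtain ⟨g, rfl⟩ := hx
        have h1 := he1 g 1
        rw [map_one] at h1
        change B e (ρ g v₀) = B e v₀ at h1
        change B e (ρ g v₀) = 0
        rw [h1, he2]
      | zero => simp
      | add x y _ _ hx hy => rw [map_add, hx, hy, add_zero]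
      | smul a x _ hx => rw [map_smul, hx, smul_zero]
    ext i
    have h1 := he3 (R i) (hR i)
    simp only [e, map_sub, map_sum, map_smul, LinearMap.sub_apply, LinearMap.sum_apply,
      LinearMap.smul_apply] at h1
    rw [hR' i d hd, sub_zero] at h1
    simp only [hpair, smul_eq_mul, mul_ite, mul_one, mul_zero] at h1
    rw [Finset.sum_ite_eq Finset.univ i c] at h1
    simpa using h1

end Frame

end Pool.Agent.MP_d81877_alF
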