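import Mathlib

/-!
MP_d81877_al, concrete frame (F4), part 1: minors in permanent form (characteristic two),
Cauchy-Binet, transpose, diagonal matrices.
-/

namespace MP_d81877_alF

open Finset Matrix

variable {ι : Type*} [Fintype ι] [DecidableEq ι] {R : Type*} [CommRing R]

/-- The minor with rows `S` and columns `S'`, in permanent form (characteristic two);
it is zero when the two sets have different size. -/
noncomputable def mn (A : Matrix ι ι R) (S S' : Finset ι) : R :=
  ∑ e : S ≃ S', ∏ i : S, A i (e i)

omit [Fintype ι] in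
theorem mn_eq_zero_of_card_ne (A : Matrix ι ι R) {S S' : Finset ι} (h : S.card ≠ S'.card) :
    mn A S S' = 0 := by
  unfold mn
  apply Finset.sum_eq_zero
  intro e _
  exfalso
  apply h
  have := Fintype.card_congr e
  simpa using this

omit [Fintype ι] in
theorem mn_transpose (A : Matrix ι ι R) (S S' : Finset ι) :
    mn Aᵀ S S' = mn A S' S := by
  unfold mn
  refine Fintype.sum_equiv (Equiv.symmEquiv S S') _ _ ?_
  intro e
  rw [← Equiv.prod_comp e (fun j : S' => A j ((Equiv.symmEquiv S S' e) j))]
  apply Finset.prod_congr rfl
  intro i _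
  simp [Equiv.symmEquiv, Matrix.transpose_apply]

omit [Fintype ι] in
/-- a minor with a zero column (column `j`, rows in `S`) vanishes -/
theorem mn_eq_zero_of_col (A : Matrix ι ι R) {S S' : Finset ι} {j : ι} (hj : j ∈ S')
    (h : ∀ i ∈ S, A i j = 0) : mn A S S' = 0 := by
  unfold mn
  apply Finset.sum_eq_zero
  intro e _
  apply Finset.prod_eq_zero (Finset.mem_univ (e.symm ⟨j, hj⟩))
  have := h (e.symm ⟨j, hj⟩) (e.symm ⟨j, hj⟩).2
  simpa using this

omit [Fintype ι] in
/-- minors of a diagonal matrix -/
theorem mn_diagonal (d : ι → R) (S S' : Finset ι) :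
    mn (Matrix.diagonal d) S S' = if S = S' then ∏ i ∈ S, d i else 0 := by
  unfold mn
  split_ifs with h
  · subst h
    rw [Finset.sum_eq_single (Equiv.refl S)]
    · simp only [Equiv.refl_apply, Matrix.diagonal_apply_eq]
      exact Finset.prod_coe_sort S d
    · intro e _ he
      have : ∃ i, e i ≠ i := by
        by_contra hcon
        push Not at hcon
        exact he (Equiv.ext hcon)
      obtain ⟨i, hi⟩ := this
      apply Finset.prod_eq_zero (Finset.mem_univ i)
      apply Matrix.diagonal_apply_ne
      intro h'
      exact hi (Subtype.ext h'.symm)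
    · intro h'
      exact absurd (Finset.mem_univ _) h'
  · apply Finset.sum_eq_zero
    intro e _
    by_contra hne
    apply h
    have hall : ∀ i : S, ((e i : S') : ι) = (i : ι) := by
      intro i
      by_contra hi
      apply hne
      apply Finset.prod_eq_zero (Finset.mem_univ i)
      apply Matrix.diagonal_apply_ne
      intro h'
      exact hi h'.symm
    ext x
    constructor
    · intro hx
      have := hall ⟨x, hx⟩
      simp only at this
      rw [← this]
      exact (e ⟨x, hx⟩).2
    · intro hx
      have := hall (e.symm ⟨x, hx⟩)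
      simp only [Equiv.apply_symm_apply] at this
      rw [this]
      exact (e.symm ⟨x, hx⟩).2

omit [Fintype ι] in
theorem mn_one (S S' : Finset ι) :
    mn (1 : Matrix ι ι R) S S' = if S = S' then 1 else 0 := by
  rw [← Matrix.diagonal_one, mn_diagonal]
  simp

omit [Fintype ι] in
/-- the inner sum in Cauchy-Binet vanishes for a non-injective row map (characteristic two) -/
theorem sum_equiv_eq_zero_of_not_injective [CharP R 2] (B : Matrix ι ι R) {S U : Finset ι}
    (f : S → ι) (hf : ¬ Function.Injective f) :
    ∑ e : S ≃ U, ∏ i : S, B (f i) (e i) = 0 := by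
  rw [Function.not_injective_iff] at hf
  obtain ⟨a, b, hab, hne⟩ := hf
  apply Finset.sum_involution (fun e _ => (Equiv.swap a b).trans e)
  · intro e _
    have h : ∏ i : S, B (f i) (((Equiv.swap a b).trans e) i) = ∏ i : S, B (f i) (e i) := by
      rw [← Equiv.prod_comp (Equiv.swap a b) (fun i : S => B (f i) (e i))]
      apply Finset.prod_congr rfl
      intro i _
      have hfi : f ((Equiv.swap a b) i) = f i := by
        rcases eq_or_ne i a with rfl | hia
        · rw [Equiv.swap_apply_left]; exact hab.symm
        · rcases eq_or_ne i b with rfl | hib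
          · rw [Equiv.swap_apply_right]; exact hab
          · rw [Equiv.swap_apply_of_ne_of_ne hia hib]
      rw [hfi]
      rfl
    rw [h]
    exact CharTwo.add_self_eq_zero _
  · intro e _ _ h
    have h2 := congrArg (fun g : S ≃ U => g a) h
    simp only [Equiv.trans_apply, Equiv.swap_apply_left] at h2
    exact hne (e.injective h2).symm
  · intro e _
    exact Finset.mem_univ _
  · intro e _
    ext i
    simp

/-- **Cauchy-Binet** in characteristic two, for minors in permanent form. -/
theorem mn_mul [CharP R 2] (A B : Matrix ι ι R) (S U : Finset ι) :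
    mn (A * B) S U = ∑ T : Finset ι, mn A S T * mn B T U := by
  classical
  have h1 : mn (A * B) S U =
      ∑ f : S → ι, (∏ i : S, A i (f i)) * ∑ e : S ≃ U, ∏ i : S, B (f i) (e i) := by
    unfold mn
    simp only [Matrix.mul_apply]
    have : ∀ e : S ≃ U, ∏ i : S, ∑ j : ι, A i j * B j (e i)
        = ∑ f : S → ι, (∏ i : S, A i (f i)) * ∏ i : S, B (f i) (e i) := by
      intro e
      rw [Finset.prod_univ_sum]
      rw [Fintype.piFinset_univ]
      apply Finset.sum_congr rfl
      intro f _
      rw [Finset.prod_mul_distrib]
    simp only [this]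
    rw [Finset.sum_comm]
    apply Finset.sum_congr rfl
    intro f _
    rw [Finset.mul_sum]
  rw [h1]
  have h2 : ∑ f : S → ι, (∏ i : S, A i (f i)) * ∑ e : S ≃ U, ∏ i : S, B (f i) (e i)
      = ∑ f ∈ (Finset.univ : Finset (S → ι)).filter (fun f => Function.Injective f),
        (∏ i : S, A i (f i)) * ∑ e : S ≃ U, ∏ i : S, B (f i) (e i) := by
    rw [Finset.sum_filter]
    apply Finset.sum_congr rfl
    intro f _
    split_ifs with hf
    · rfl
    · rw [sum_equiv_eq_zero_of_not_injective B f hf, mul_zero]
  rw [h2]
  have h3 : ∑ T : Finset ι, mn A S T * mn B T U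
      = ∑ p ∈ (Finset.univ : Finset (Σ T : Finset ι, (S ≃ T))),
          (∏ i : S, A i (p.2 i)) * ∑ e : S ≃ U, ∏ i : S, B (p.2 i) (e i) := by
    rw [← Finset.univ_sigma_univ, Finset.sum_sigma]
    apply Finset.sum_congr rfl
    intro T _
    unfold mn
    rw [Finset.sum_mul]
    apply Finset.sum_congr rfl
    intro f _
    congr 1
    refine Fintype.sum_equiv (Equiv.equivCongr f.symm (Equiv.refl _)) _ _ ?_
    intro e
    rw [← Equiv.prod_comp f (fun j : T => B j (e j))]
    apply Finset.prod_congr rfl
    intro i _
    simp [Equiv.equivCongr]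
  rw [h3]
  symm
  refine Finset.sum_bij (fun p _ => fun i : S => ((p.2 i : p.1) : ι)) ?_ ?_ ?_ ?_
  · intro p _
    simp only [Finset.mem_filter, Finset.mem_univ, true_and]
    intro i j hij
    exact p.2.injective (Subtype.ext hij)
  · rintro ⟨T, f⟩ _ ⟨T', f'⟩ _ h
    have hfun : ∀ i : S, ((f i : T) : ι) = ((f' i : T') : ι) := fun i => congrFun h i
    have hT : T = T' := by
      ext x
      constructor
      · intro hx
        have := hfun (f.symm ⟨x, hx⟩)
        rw [Equiv.apply_symm_apply] at this
        simp only at this
        rw [this]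
        exact (f' _).2
      · intro hx
        have := hfun (f'.symm ⟨x, hx⟩)
        rw [Equiv.apply_symm_apply] at this
        simp only at this
        rw [← this]
        exact (f _).2
    subst hT
    congr 1
    ext i
    exact hfun i
  · intro f hf
    simp only [Finset.mem_filter, Finset.mem_univ, true_and] at hf
    let T : Finset ι := Finset.univ.image f
    have hmem : ∀ i : S, f i ∈ T := fun i => Finset.mem_image_of_mem f (Finset.mem_univ i)
    refine ⟨⟨T, Equiv.ofBijective (fun i : S => (⟨f i, hmem i⟩ : T)) ⟨?_, ?_⟩⟩,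
      Finset.mem_univ _, ?_⟩
    · intro i j hij
      exact hf (congrArg Subtype.val hij)
    · rintro ⟨x, hx⟩
      obtain ⟨i, _, hi⟩ := Finset.mem_image.mp hx
      exact ⟨i, Subtype.ext hi⟩
    · rfl
  · intro p _
    rfl

end MP_d81877_alF
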