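import Mathlib
import Pool.Agent.Lib.MP_d81877_alF.Mn

/-!
MP_d81877_al, concrete frame (F4), part 2: the tensor space `T` with `s` columns,
the action of matrices by products of minors, and the group `GL_N(F)`.
-/

namespace MP_d81877_alF

open Finset Matrix

/-- the tensor space: functions on `s`-tuples of subsets of the `N` sites -/
abbrev TT (N s : ℕ) (K : Type*) := (Fin s → Finset (Fin N)) → K

section rho

variable {N s : ℕ} {K : Type*} [Field K]

/-- the action of a matrix on `T`, by products of minors -/
noncomputable def rho (A : Matrix (Fin N) (Fin N) K) : TT N s K →ₗ[K] TT N s K where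
  toFun f := fun S => ∑ S' : Fin s → Finset (Fin N), (∏ j, mn A (S j) (S' j)) * f S'
  map_add' f g := by
    ext S
    simp only [Pi.add_apply, mul_add, Finset.sum_add_distrib]
  map_smul' a f := by
    ext S
    simp only [Pi.smul_apply, smul_eq_mul, RingHom.id_apply, Finset.mul_sum]
    apply Finset.sum_congr rfl
    intro S' _
    ring

theorem rho_apply (A : Matrix (Fin N) (Fin N) K) (f : TT N s K) (S : Fin s → Finset (Fin N)) :
    rho A f S = ∑ S' : Fin s → Finset (Fin N), (∏ j, mn A (S j) (S' j)) * f S' := rfl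

theorem rho_one : rho (1 : Matrix (Fin N) (Fin N) K) = (LinearMap.id : TT N s K →ₗ[K] TT N s K) := by
  refine LinearMap.ext fun f => funext fun S => ?_
  rw [rho_apply, Finset.sum_eq_single S]
  · simp [mn_one]
  · intro S' _ hne
    have : ∃ j, S' j ≠ S j := by
      by_contra hcon
      push Not at hcon
      exact hne (funext hcon)
    obtain ⟨j, hj⟩ := this
    rw [Finset.prod_eq_zero (Finset.mem_univ j), zero_mul]
    rw [mn_one, if_neg (fun h => hj h.symm)]
  · intro h
    exact absurd (Finset.mem_univ _) h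

theorem rho_mul [CharP K 2] (A B : Matrix (Fin N) (Fin N) K) :
    rho (A * B) = (rho A : TT N s K →ₗ[K] TT N s K) ∘ₗ rho B := by
  refine LinearMap.ext fun f => funext fun S => ?_
  rw [LinearMap.comp_apply, rho_apply, rho_apply]
  simp only [rho_apply, Finset.mul_sum]
  rw [Finset.sum_comm]
  apply Finset.sum_congr rfl
  intro S'' _
  have h : ∏ j, mn (A * B) (S j) (S'' j)
      = ∑ S' : Fin s → Finset (Fin N), ∏ j, (mn A (S j) (S' j) * mn B (S' j) (S'' j)) := by
    simp only [mn_mul]
    rw [Finset.prod_univ_sum, Fintype.piFinset_univ]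
  rw [h, Finset.sum_mul]
  apply Finset.sum_congr rfl
  intro S' _
  rw [Finset.prod_mul_distrib]
  ring

/-- a diagonal matrix acts by the product of its entries -/
theorem rho_diagonal (d : Fin N → K) (f : TT N s K) (S : Fin s → Finset (Fin N)) :
    rho (Matrix.diagonal d) f S = (∏ j, ∏ i ∈ S j, d i) * f S := by
  rw [rho_apply, Finset.sum_eq_single S]
  · simp [mn_diagonal]
  · intro S' _ hne
    have : ∃ j, S' j ≠ S j := by
      by_contra hcon
      push Not at hcon
      exact hne (funext hcon)
    obtain ⟨j, hj⟩ := this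
    rw [Finset.prod_eq_zero (Finset.mem_univ j), zero_mul]
    rw [mn_diagonal, if_neg (fun h => hj h.symm)]
  · intro h
    exact absurd (Finset.mem_univ _) h

/-- the standard bilinear form on `T` -/
noncomputable def stdB (N s : ℕ) (K : Type*) [Field K] : TT N s K →ₗ[K] TT N s K →ₗ[K] K :=
  LinearMap.mk₂ K (fun f g => ∑ S, f S * g S)
    (by intro a b c; simp only [Pi.add_apply, add_mul, Finset.sum_add_distrib])
    (by intro a b c; simp only [Pi.smul_apply, smul_eq_mul, Finset.mul_sum, mul_assoc])
    (by intro a b c; simp only [Pi.add_apply, mul_add, Finset.sum_add_distrib])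
    (by
      intro a b c
      simp only [Pi.smul_apply, smul_eq_mul, Finset.mul_sum]
      apply Finset.sum_congr rfl
      intro S _
      ring)

theorem stdB_apply (f g : TT N s K) : stdB N s K f g = ∑ S, f S * g S := rfl

theorem stdB_symm (f g : TT N s K) : stdB N s K f g = stdB N s K g f := by
  simp only [stdB_apply, mul_comm]

/-- the transpose is the adjoint -/
theorem stdB_rho (A : Matrix (Fin N) (Fin N) K) (f g : TT N s K) :
    stdB N s K (rho A f) g = stdB N s K f (rho Aᵀ g) := by
  simp only [stdB_apply, rho_apply, Finset.sum_mul, Finset.mul_sum]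
  rw [Finset.sum_comm]
  apply Finset.sum_congr rfl
  intro S _
  apply Finset.sum_congr rfl
  intro S' _
  have : ∏ j, mn Aᵀ (S j) (S' j) = ∏ j, mn A (S' j) (S j) := by
    apply Finset.prod_congr rfl
    intro j _
    rw [mn_transpose]
  rw [this]
  ring

/-- the corner sets -/
def corner (N c : ℕ) : Finset (Fin N) := Finset.univ.filter (fun i => i.val < c)

theorem mem_corner {N c : ℕ} {i : Fin N} : i ∈ corner N c ↔ i.val < c := by
  simp [corner]

theorem card_corner {N c : ℕ} (h : c ≤ N) : (corner N c).card = c := by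
  unfold corner
  have : (Finset.univ.filter (fun i : Fin N => i.val < c))
      = (Finset.univ : Finset (Fin c)).map (Fin.castLEEmb h) := by
    ext i
    simp only [Finset.mem_filter, Finset.mem_univ, true_and, Finset.mem_map]
    constructor
    · intro hi
      exact ⟨⟨i.val, hi⟩, by ext; simp⟩
    · rintro ⟨a, rfl⟩
      simp
  rw [this, Finset.card_map, Finset.card_univ, Fintype.card_fin]

/-- the highest weight vector -/
noncomputable def vtop (N : ℕ) {s : ℕ} (K : Type*) [Field K] (c : Fin s → ℕ) : TT N s K :=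
  Pi.single (fun j => corner N (c j)) 1

theorem stdB_vtop (c : Fin s → ℕ) (f : TT N s K) :
    stdB N s K f (vtop N K c) = f (fun j => corner N (c j)) := by
  rw [stdB_apply, Finset.sum_eq_single (fun j => corner N (c j))]
  · simp [vtop]
  · intro S _ hS
    simp [vtop, hS]
  · intro h
    exact absurd (Finset.mem_univ _) h

theorem rho_vtop (A : Matrix (Fin N) (Fin N) K) (c : Fin s → ℕ) (S : Fin s → Finset (Fin N)) :
    rho A (vtop N K c) S = ∏ j, mn A (S j) (corner N (c j)) := by
  rw [rho_apply, Finset.sum_eq_single (fun j => corner N (c j))]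
  · simp [vtop]
  · intro S' _ hS
    simp [vtop, hS]
  · intro h
    exact absurd (Finset.mem_univ _) h

/-- the tensors of shape `c` -/
def shape (N : ℕ) {s : ℕ} (K : Type*) [Field K] (c : Fin s → ℕ) : Submodule K (TT N s K) where
  carrier := {f | ∀ S, (∃ j, (S j).card ≠ c j) → f S = 0}
  zero_mem' := by intro S _; rfl
  add_mem' := by
    intro f g hf hg S hS
    simp [hf S hS, hg S hS]
  smul_mem' := by
    intro a f hf S hS
    simp [hf S hS]

theorem rho_mem_shape (A : Matrix (Fin N) (Fin N) K) (c : Fin s → ℕ) {f : TT N s K}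
    (hf : f ∈ shape N K c) : rho A f ∈ shape N K c := by
  intro S hS
  obtain ⟨j, hj⟩ := hS
  rw [rho_apply]
  apply Finset.sum_eq_zero
  intro S' _
  by_cases h : (S' j).card = c j
  · rw [Finset.prod_eq_zero (Finset.mem_univ j), zero_mul]
    apply mn_eq_zero_of_card_ne
    rw [h]
    exact hj
  · rw [hf S' ⟨j, h⟩, mul_zero]

theorem vtop_mem_shape {c : Fin s → ℕ} (hc : ∀ j, c j ≤ N) : vtop N K c ∈ shape N K c := by
  intro S hS
  obtain ⟨j, hj⟩ := hS
  have : S ≠ fun j => corner N (c j) := by
    intro h
    apply hj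
    rw [h]
    exact card_corner (hc j)
  simp [vtop, this]

end rho

section weight

variable {N s : ℕ}

/-- the weight of a set of sites -/
def wt (S : Finset (Fin N)) : ℕ := ∑ i ∈ S, i.val

theorem wt_corner_add_le (S : Finset (Fin N)) (c : ℕ) (hS : S.card = (corner N c).card) :
    wt (corner N c) + (S \ corner N c).card ≤ wt S := by
  classical
  have h1 : wt S = (∑ i ∈ S \ corner N c, i.val) + ∑ i ∈ S ∩ corner N c, i.val := by
    unfold wt
    rw [← Finset.sum_sdiff (Finset.inter_subset_left : S ∩ corner N c ⊆ S)]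
    congr 1
    rw [Finset.sdiff_inter_self_left]
  have h2 : wt (corner N c) = (∑ i ∈ corner N c \ S, i.val) + ∑ i ∈ S ∩ corner N c, i.val := by
    unfold wt
    rw [← Finset.sum_sdiff (Finset.inter_subset_right : S ∩ corner N c ⊆ corner N c)]
    congr 1
    rw [Finset.sdiff_inter_self_right]
  have hcard : (S \ corner N c).card = (corner N c \ S).card := by
    exact Finset.card_sdiff_comm hS
  have h3 : (S \ corner N c).card * c ≤ ∑ i ∈ S \ corner N c, i.val := by
    rw [← smul_eq_mul]
    apply Finset.card_nsmul_le_sum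
    intro i hi
    rw [Finset.mem_sdiff, mem_corner] at hi
    omega
  have h4 : ∑ i ∈ corner N c \ S, (i.val + 1) ≤ (corner N c \ S).card * c := by
    rw [← smul_eq_mul]
    apply Finset.sum_le_card_nsmul
    intro i hi
    rw [Finset.mem_sdiff, mem_corner] at hi
    omega
  rw [Finset.sum_add_distrib] at h4
  simp only [Finset.sum_const, smul_eq_mul, mul_one] at h4
  rw [h1, h2]
  rw [← hcard] at h4
  omega

theorem wt_le (S : Finset (Fin N)) : wt S ≤ N * N := by
  unfold wt
  calc ∑ i ∈ S, i.val ≤ ∑ i ∈ S, N := Finset.sum_le_sum (fun i _ => le_of_lt i.isLt)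
    _ = S.card * N := by simp
    _ ≤ N * N := Nat.mul_le_mul_right _ (by simpa using Finset.card_le_univ S)

theorem eq_corner_of_wt {S : Finset (Fin N)} {c : ℕ} (hS : S.card = (corner N c).card)
    (h : wt S = wt (corner N c)) : S = corner N c := by
  have h1 := wt_corner_add_le S c hS
  have h2 : (S \ corner N c).card = 0 := by omega
  rw [Finset.card_eq_zero, Finset.sdiff_eq_empty_iff_subset] at h2
  exact Finset.eq_of_subset_of_card_le h2 (by omega)

end weight

section group

variable {N s : ℕ} {F K : Type*} [Field F] [Field K] [Algebra F K] [CharP K 2]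

/-- the matrix over `K` of a group element -/
def mK (K : Type*) [Field K] [Algebra F K] (g : GL (Fin N) F) : Matrix (Fin N) (Fin N) K :=
  (g : Matrix (Fin N) (Fin N) F).map (algebraMap F K)

omit [CharP K 2] in
theorem mK_mul (g h : GL (Fin N) F) : mK K (g * h) = mK K g * mK K h := by
  unfold mK
  rw [Units.val_mul, Matrix.map_mul]

omit [CharP K 2] in
theorem mK_one : mK K (1 : GL (Fin N) F) = 1 := by
  unfold mK
  rw [Units.val_one, Matrix.map_one _ (map_zero _) (map_one _)]

/-- the determinant twist -/
def dtw (K : Type*) [Field K] [Algebra F K] (g : GL (Fin N) F) : K :=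
  (algebraMap F K (((Matrix.GeneralLinearGroup.det g)⁻¹ : Fˣ) : F)) ^ 2

omit [CharP K 2] in
theorem dtw_mul (g h : GL (Fin N) F) : dtw K (g * h) = dtw K g * dtw K h := by
  unfold dtw
  rw [map_mul, mul_inv, Units.val_mul, map_mul, mul_pow]

omit [CharP K 2] in
theorem dtw_one : dtw K (1 : GL (Fin N) F) = 1 := by
  unfold dtw
  simp

omit [CharP K 2] in
theorem dtw_ne_zero (g : GL (Fin N) F) : dtw K g ≠ 0 := by
  unfold dtw
  apply pow_ne_zero
  rw [Ne, map_eq_zero]
  exact Units.ne_zero _

/-- the representation of `GL_N(F)` on `T`, twisted by `det⁻²` -/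
noncomputable def rhoG (N s : ℕ) (F K : Type*) [Field F] [Field K] [Algebra F K] [CharP K 2] :
    GL (Fin N) F →* (TT N s K →ₗ[K] TT N s K) where
  toFun g := dtw K g • rho (mK K g)
  map_one' := by
    rw [dtw_one, mK_one, rho_one, one_smul]
    rfl
  map_mul' g h := by
    rw [dtw_mul, mK_mul, rho_mul]
    refine LinearMap.ext fun f => ?_
    simp only [LinearMap.smul_apply, LinearMap.comp_apply, Module.End.mul_apply, map_smul,
      smul_smul]
    rw [mul_comm (dtw K h)]

theorem rhoG_apply (g : GL (Fin N) F) (f : TT N s K) :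
    rhoG N s F K g f = dtw K g • rho (mK K g) f := rfl

theorem rhoG_mem_shape (g : GL (Fin N) F) (c : Fin s → ℕ) {f : TT N s K}
    (hf : f ∈ shape N K c) : rhoG N s F K g f ∈ shape N K c := by
  rw [rhoG_apply]
  exact Submodule.smul_mem _ _ (rho_mem_shape _ _ hf)

/-- the transpose as an element of the group -/
def tau (g : GL (Fin N) F) : GL (Fin N) F where
  val := (g : Matrix (Fin N) (Fin N) F)ᵀ
  inv := ((g⁻¹ : GL (Fin N) F) : Matrix (Fin N) (Fin N) F)ᵀ
  val_inv := by
    rw [← Matrix.transpose_mul, ← Units.val_mul, inv_mul_cancel, Units.val_one,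
      Matrix.transpose_one]
  inv_val := by
    rw [← Matrix.transpose_mul, ← Units.val_mul, mul_inv_cancel, Units.val_one,
      Matrix.transpose_one]

omit [Field K] [Algebra F K] [CharP K 2] in
theorem tau_mul (g h : GL (Fin N) F) : tau (g * h) = tau h * tau g := by
  apply Units.ext
  show ((g * h : GL (Fin N) F) : Matrix (Fin N) (Fin N) F)ᵀ = _
  rw [Units.val_mul, Matrix.transpose_mul]
  rfl

theorem tau_tau (g : GL (Fin N) F) : tau (tau g) = g := by
  apply Units.ext
  show ((g : Matrix (Fin N) (Fin N) F)ᵀ)ᵀ = _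
  rw [Matrix.transpose_transpose]

omit [CharP K 2] in
theorem mK_tau (g : GL (Fin N) F) : mK K (tau g) = (mK K g)ᵀ := by
  ext i j
  rfl

omit [CharP K 2] in
theorem dtw_tau (g : GL (Fin N) F) : dtw K (tau g) = dtw K g := by
  have : Matrix.GeneralLinearGroup.det (tau g) = Matrix.GeneralLinearGroup.det g := by
    apply Units.ext
    show ((g : Matrix (Fin N) (Fin N) F)ᵀ).det = (g : Matrix (Fin N) (Fin N) F).det
    exact Matrix.det_transpose _
  unfold dtw
  rw [this]

theorem stdB_rhoG (g : GL (Fin N) F) (u v : TT N s K) :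
    stdB N s K (rhoG N s F K g u) v = stdB N s K u (rhoG N s F K (tau g) v) := by
  rw [rhoG_apply, rhoG_apply, map_smul, LinearMap.smul_apply, map_smul, stdB_rho, mK_tau, dtw_tau]

end group

end MP_d81877_alF
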