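import Mathlib
import Pool.Agent.Lib.MP_d81877_alF.Conc

/-!
MP_d81877_al, concrete frame (F4), part 3: the torus projector (P), the torus element (N) and
the kernel condition (K).
-/

namespace MP_d81877_alF

open Finset Matrix

variable {N s : ℕ} {F K : Type*} [Field F] [Field K] [Algebra F K] [CharP K 2]

/-- diagonal elements of the group -/
def dgl (d : Fin N → Fˣ) : GL (Fin N) F where
  val := Matrix.diagonal (fun i => (d i : F))
  inv := Matrix.diagonal (fun i => (((d i)⁻¹ : Fˣ) : F))
  val_inv := by
    rw [Matrix.diagonal_mul_diagonal]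
    simp
  inv_val := by
    rw [Matrix.diagonal_mul_diagonal]
    simp

omit [CharP K 2] in
theorem mK_dgl (d : Fin N → Fˣ) :
    mK K (dgl d) = Matrix.diagonal (fun i => algebraMap F K (d i : F)) := by
  unfold mK dgl
  simp only
  rw [Matrix.diagonal_map (map_zero _)]

omit [CharP K 2] in
theorem dtw_dgl (d : Fin N → Fˣ) :
    dtw K (dgl d) = (algebraMap F K (((∏ i, d i)⁻¹ : Fˣ) : F)) ^ 2 := by
  have : Matrix.GeneralLinearGroup.det (dgl d) = ∏ i, d i := by
    apply Units.ext
    show (Matrix.diagonal (fun i => (d i : F))).det = _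
    rw [Matrix.det_diagonal, Units.coe_prod]
  unfold dtw
  rw [this]

theorem rhoG_dgl (d : Fin N → Fˣ) (f : TT N s K) (S : Fin s → Finset (Fin N)) :
    rhoG N s F K (dgl d) f S =
      (algebraMap F K (((∏ i, d i)⁻¹ : Fˣ) : F)) ^ 2 *
        ((∏ j, ∏ i ∈ S j, algebraMap F K (d i : F)) * f S) := by
  rw [rhoG_apply, Pi.smul_apply, mK_dgl, rho_diagonal, dtw_dgl, smul_eq_mul]

/-- **(P)**: a stable subspace containing a tensor of the right shape which is not orthogonal to
the highest weight vector contains the highest weight vector. -/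
theorem condP [Fintype F] (c : Fin s → ℕ) (hc : ∀ j, c j ≤ N)
    (hq : s * (N * N) < Fintype.card F - 1) (M : Submodule K (TT N s K))
    (hM : ∀ g : GL (Fin N) F, ∀ m ∈ M, rhoG N s F K g m ∈ M)
    (m : TT N s K) (hm : m ∈ M) (hms : m ∈ shape N K c)
    (hB : stdB N s K m (vtop N K c) ≠ 0) : vtop N K c ∈ M := by
  classical
  rw [stdB_vtop] at hB
  set d0 : ℕ := ∑ j, wt (corner N (c j)) with hd0
  let tt : Fˣ → Fin N → Fˣ := fun t i => t ^ (i.val)
  let a : Fˣ → K := fun t => (algebraMap F K ((∏ i, tt t i : Fˣ) : F)) ^ 2 *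
      (algebraMap F K ((t⁻¹ : Fˣ) : F)) ^ d0
  set u : TT N s K := ∑ t : Fˣ, a t • rhoG N s F K (dgl (tt t)) m with hu
  have huM : u ∈ M := by
    rw [hu]
    apply Submodule.sum_mem
    intro t _
    exact Submodule.smul_mem _ _ (hM _ _ hm)
  have hterm : ∀ (t : Fˣ) (S : Fin s → Finset (Fin N)),
      (a t • rhoG N s F K (dgl (tt t)) m) S
        = (algebraMap F K ((t⁻¹ : Fˣ) : F)) ^ d0 * (algebraMap F K (t : F)) ^ (∑ j, wt (S j))
          * m S := by
    intro t S
    rw [Pi.smul_apply, rhoG_dgl, smul_eq_mul]
    have h1 : (algebraMap F K ((∏ i, tt t i : Fˣ) : F)) ^ 2 *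
        (algebraMap F K (((∏ i, tt t i)⁻¹ : Fˣ) : F)) ^ 2 = 1 := by
      rw [← mul_pow, ← map_mul, ← Units.val_mul, mul_inv_cancel, Units.val_one, map_one, one_pow]
    have h2 : (∏ j, ∏ i ∈ S j, algebraMap F K ((tt t i : Fˣ) : F))
        = (algebraMap F K (t : F)) ^ (∑ j, wt (S j)) := by
      rw [← Finset.prod_pow_eq_pow_sum]
      apply Finset.prod_congr rfl
      intro j _
      unfold wt
      rw [← Finset.prod_pow_eq_pow_sum]
      apply Finset.prod_congr rfl
      intro i _
      simp only [tt, Units.val_pow_eq_pow_val, map_pow]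
    rw [h2]
    calc _ = ((algebraMap F K ((∏ i, tt t i : Fˣ) : F)) ^ 2 *
        (algebraMap F K (((∏ i, tt t i)⁻¹ : Fˣ) : F)) ^ 2) *
        ((algebraMap F K ((t⁻¹ : Fˣ) : F)) ^ d0 * (algebraMap F K (t : F)) ^ (∑ j, wt (S j))
          * m S) := by simp only [a]; ring
      _ = _ := by rw [h1, one_mul]
  have huS : ∀ S, (∀ j, (S j).card = c j) →
      u S = if (∀ j, S j = corner N (c j)) then -m S else 0 := by
    intro S hS
    have hge : ∀ j, wt (corner N (c j)) ≤ wt (S j) := by
      intro j
      have := wt_corner_add_le (S j) (c j) (by rw [hS j, card_corner (hc j)])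
      omega
    have hle : d0 ≤ ∑ j, wt (S j) := Finset.sum_le_sum (fun j _ => hge j)
    have hub : ∑ j, wt (S j) ≤ s * (N * N) := by
      calc ∑ j, wt (S j) ≤ ∑ _j : Fin s, N * N := Finset.sum_le_sum (fun j _ => wt_le _)
        _ = s * (N * N) := by simp
    have h1 : u S = (∑ t : Fˣ, algebraMap F K ((t : F) ^ ((∑ j, wt (S j)) - d0))) * m S := by
      rw [hu, Finset.sum_apply, Finset.sum_mul]
      apply Finset.sum_congr rfl
      intro t _
      rw [hterm]
      congr 1
      rw [← map_pow, ← map_pow, ← map_mul, ← Units.val_pow_eq_pow_val, ← Units.val_pow_eq_pow_val,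
        ← Units.val_mul, ← Units.val_pow_eq_pow_val]
      congr 2
      rw [inv_pow, inv_mul_eq_iff_eq_mul, ← pow_add]
      congr 1
      omega
    have h2 : (∑ t : Fˣ, algebraMap F K ((t : F) ^ ((∑ j, wt (S j)) - d0)))
        = if (Fintype.card F - 1) ∣ ((∑ j, wt (S j)) - d0) then -1 else 0 := by
      rw [← map_sum, FiniteField.sum_pow_units]
      split_ifs
      · rw [map_neg, map_one]
      · rw [map_zero]
    rw [h1, h2]
    by_cases hall : ∀ j, S j = corner N (c j)
    · rw [if_pos hall]
      have : ∑ j, wt (S j) = d0 := by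
        rw [hd0]
        apply Finset.sum_congr rfl
        intro j _
        rw [hall j]
      rw [this, Nat.sub_self, if_pos (dvd_zero _)]
      ring
    · rw [if_neg hall]
      have hne : ∑ j, wt (S j) ≠ d0 := by
        intro heq
        apply hall
        intro j
        apply eq_corner_of_wt (by rw [hS j, card_corner (hc j)])
        by_contra hj
        have hlt : wt (corner N (c j)) < wt (S j) := lt_of_le_of_ne (hge j) (Ne.symm hj)
        have : d0 < ∑ j, wt (S j) :=
          Finset.sum_lt_sum (fun j _ => hge j) ⟨j, Finset.mem_univ j, hlt⟩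
        omega
      rw [if_neg, zero_mul]
      intro hdvd
      have hpos : 0 < (∑ j, wt (S j)) - d0 := by omega
      have := Nat.le_of_dvd hpos hdvd
      omega
  have huv : u = (-m (fun j => corner N (c j))) • vtop N K c := by
    funext S
    rw [Pi.smul_apply, smul_eq_mul]
    by_cases hS : ∀ j, (S j).card = c j
    · rw [huS S hS]
      by_cases hall : ∀ j, S j = corner N (c j)
      · rw [if_pos hall]
        have : S = fun j => corner N (c j) := funext hall
        subst this
        simp [vtop]
      · rw [if_neg hall]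
        have : S ≠ fun j => corner N (c j) := fun h => hall (fun j => congrFun h j)
        simp [vtop, this]
    · push Not at hS
      have h0 : m S = 0 := hms S hS
      have : S ≠ fun j => corner N (c j) := by
        intro h
        obtain ⟨j, hj⟩ := hS
        apply hj
        rw [h]
        exact card_corner (hc j)
      have h1 : u S = 0 := by
        rw [hu, Finset.sum_apply]
        apply Finset.sum_eq_zero
        intro t _
        rw [hterm, h0, mul_zero]
      rw [h1]
      simp [vtop, this]
  have hne : -m (fun j => corner N (c j)) ≠ 0 := neg_ne_zero.mpr hB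
  rw [huv] at huM
  have := Submodule.smul_mem M (-m (fun j => corner N (c j)))⁻¹ huM
  rwa [smul_smul, inv_mul_cancel₀ hne, one_smul] at this

/-- **(N)**: a torus element which moves the highest weight vector (four columns). -/
theorem condN (c : Fin 4 → ℕ) (hc1 : ∀ j, 1 ≤ c j) (hN : 0 < N) (t : Fˣ) (ht : t ≠ 1) :
    ∃ (g : GL (Fin N) F) (a : K), rhoG N 4 F K g (vtop N K c) = a • vtop N K c ∧ a ≠ 1 := by
  classical
  let i0 : Fin N := ⟨0, hN⟩
  let d : Fin N → Fˣ := fun i => if i = i0 then t else 1
  refine ⟨dgl d, (algebraMap F K (t : F)) ^ 2, ?_, ?_⟩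
  · funext S
    rw [rhoG_dgl, Pi.smul_apply, smul_eq_mul]
    by_cases hS : S = fun j => corner N (c j)
    · subst hS
      have h1 : ∏ i, d i = t := by
        simp [d]
      have h2 : ∀ j : Fin 4, ∏ i ∈ corner N (c j), algebraMap F K ((d i : Fˣ) : F)
          = algebraMap F K (t : F) := by
        intro j
        rw [Finset.prod_eq_single i0]
        · simp [d]
        · intro i _ hi
          simp [d, hi]
        · intro h
          exfalso
          apply h
          rw [mem_corner]
          exact hc1 j
      have h3 : algebraMap F K (((t)⁻¹ : Fˣ) : F) * algebraMap F K (t : F) = 1 := by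
        rw [← map_mul, ← Units.val_mul, inv_mul_cancel, Units.val_one, map_one]
      simp only [h1, h2, Finset.prod_const, Finset.card_univ, Fintype.card_fin]
      calc _ = (algebraMap F K (((t)⁻¹ : Fˣ) : F) * algebraMap F K (t : F)) ^ 2 *
            ((algebraMap F K (t : F)) ^ 2 * vtop N K c (fun j => corner N (c j))) := by ring
        _ = _ := by rw [h3, one_pow, one_mul]
    · simp [vtop, hS]
  · intro h
    apply ht
    have h1 : (algebraMap F K (t : F) - 1) ^ 2 = 0 := by
      rw [sub_sq, h, mul_one, one_pow]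
      have h2 : (2 : K) = 0 := CharTwo.two_eq_zero
      rw [h2, zero_mul, sub_zero]
      exact CharTwo.add_self_eq_zero 1
    have h2 : algebraMap F K (t : F) = 1 := by
      rw [pow_eq_zero_iff two_ne_zero, sub_eq_zero] at h1
      exact h1
    apply Units.ext
    rw [Units.val_one]
    apply (algebraMap F K).injective
    rw [h2, map_one]

end MP_d81877_alF
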