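import Mathlib
import Pool.Agent.Lib.MP_d81877_alF.ConcP

/-!
MP_d81877_al, concrete frame (F4), part 4: the kernel condition (K).
-/

namespace MP_d81877_alF

open Finset Matrix

variable {N s : ℕ} {F K : Type*} [Field F] [Field K] [Algebra F K] [CharP K 2]

/-- the coefficient of the highest weight vector -/
theorem stdB_vtop_rhoG (c : Fin s → ℕ) (g : GL (Fin N) F) :
    stdB N s K (vtop N K c) (rhoG N s F K g (vtop N K c))
      = dtw K g * ∏ j, mn (mK K g) (corner N (c j)) (corner N (c j)) := by
  rw [stdB_symm, stdB_vtop, rhoG_apply, Pi.smul_apply, smul_eq_mul, rho_vtop]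

omit [Algebra F K] [CharP K 2] in
theorem stdB_vtop_vtop (c : Fin s → ℕ) :
    stdB N s K (vtop N K c) (vtop N K c) = 1 := by
  rw [stdB_vtop]
  simp [vtop]

/-- the property of the elements of the kernel -/
def KP (c : Fin s → ℕ) (K : Type*) [Field K] [Algebra F K] [CharP K 2] (g : GL (Fin N) F) : Prop :=
  ∀ x y : GL (Fin N) F, stdB N s K (vtop N K c) (rhoG N s F K (x * g * y) (vtop N K c))
    = stdB N s K (vtop N K c) (rhoG N s F K (x * y) (vtop N K c))

theorem KP_conj (c : Fin s → ℕ) (g h : GL (Fin N) F) (hg : KP c K g) : KP c K (h * g * h⁻¹) := by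
  intro x y
  have := hg (x * h) (h⁻¹ * y)
  rw [show x * (h * g * h⁻¹) * y = x * h * g * (h⁻¹ * y) by group, this]
  congr 3
  group

/-- off-diagonal entries vanish -/
theorem KP_offdiag (c : Fin s → ℕ) (j0 : Fin s) (hj1 : 1 ≤ c j0) (hj2 : c j0 < N)
    (g : GL (Fin N) F) (hg : KP c K g) {i k : Fin N} (hik : k ≠ i) :
    (g : Matrix (Fin N) (Fin N) F) k i = 0 := by
  classical
  by_contra hne
  have hN : 0 < N := by omega
  let z : Fin N := ⟨0, hN⟩
  let l : Fin N := ⟨N - 1, by omega⟩
  have hzl : z ≠ l := by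
    intro h
    have := congrArg Fin.val h
    simp only [z, l] at this
    omega
  -- a permutation with z ↦ i, l ↦ k
  obtain ⟨σ, hσz, hσl⟩ : ∃ σ : Equiv.Perm (Fin N), σ z = i ∧ σ l = k := by
    refine ⟨(Equiv.swap z i).trans (Equiv.swap (Equiv.swap z i l) k), ?_, ?_⟩
    · rw [Equiv.trans_apply, Equiv.swap_apply_left]
      apply Equiv.swap_apply_of_ne_of_ne
      · intro h
        apply hzl
        have := congrArg (Equiv.swap z i) h
        rw [Equiv.swap_apply_right, Equiv.swap_apply_self] at this
        exact this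
      · exact hik.symm
    · rw [Equiv.trans_apply, Equiv.swap_apply_left]
  -- the matrix `Y`
  let w : Fin N → F := fun a => (g : Matrix (Fin N) (Fin N) F) (σ a) i
  let Y0 : Matrix (Fin N) (Fin N) F := (1 : Matrix (Fin N) (Fin N) F).updateCol l w
  have hdet0 : Y0.det ≠ 0 := by
    have : Y0.det = w l := by
      show ((1 : Matrix (Fin N) (Fin N) F).updateCol l w).det = w l
      rw [← Matrix.cramer_apply, Matrix.cramer_one]
      rfl
    rw [this]
    simp only [w, hσl]
    exact hne
  let Y1 : Matrix (Fin N) (Fin N) F := Y0.submatrix (σ.symm) id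
  have hdet1 : Y1.det ≠ 0 := by
    have : Y1 = (Y0.submatrix σ.symm σ.symm).submatrix id σ := by
      ext a b
      simp [Y1]
    rw [this, Matrix.det_permute', Matrix.det_submatrix_equiv_self]
    apply mul_ne_zero
    · rcases Int.units_eq_one_or (Equiv.Perm.sign σ) with h | h <;> rw [h] <;> simp
    · exact hdet0
  let y : GL (Fin N) F := Matrix.GeneralLinearGroup.mkOfDetNeZero Y1 hdet1
  have hyv : (y : Matrix (Fin N) (Fin N) F) = Y1 := rfl
  -- the columns of `y`
  have hcz : ∀ a, Y1 a z = if a = i then 1 else 0 := by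
    intro a
    show Y0 (σ.symm a) z = _
    show (1 : Matrix (Fin N) (Fin N) F).updateCol l w (σ.symm a) z = _
    rw [Matrix.updateCol_ne hzl, Matrix.one_apply]
    by_cases ha : a = i
    · subst ha
      rw [if_pos rfl, if_pos]
      rw [Equiv.symm_apply_eq, hσz]
    · rw [if_neg ha, if_neg]
      intro h
      apply ha
      rw [Equiv.symm_apply_eq, hσz] at h
      exact h
  have hcl : ∀ a, Y1 a l = (g : Matrix (Fin N) (Fin N) F) a i := by
    intro a
    show (1 : Matrix (Fin N) (Fin N) F).updateCol l w (σ.symm a) l = _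
    rw [Matrix.updateCol_self]
    simp only [w, Equiv.apply_symm_apply]
  -- `g y` and `y` on the first and the last basis vector
  have hgy : ∀ a, ((g * y : GL (Fin N) F) : Matrix (Fin N) (Fin N) F) a z
      = (y : Matrix (Fin N) (Fin N) F) a l := by
    intro a
    rw [Units.val_mul, Matrix.mul_apply, hyv, hcl]
    rw [Finset.sum_eq_single i]
    · rw [hcz, if_pos rfl, mul_one]
    · intro b _ hb
      rw [hcz, if_neg hb, mul_zero]
    · intro h
      exact absurd (Finset.mem_univ _) h
  have hcol : ∀ a, ((y⁻¹ * g * y : GL (Fin N) F) : Matrix (Fin N) (Fin N) F) a z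
      = if a = l then 1 else 0 := by
    intro a
    rw [mul_assoc, Units.val_mul, Matrix.mul_apply]
    simp only [hgy]
    rw [← Matrix.mul_apply, ← Units.val_mul, inv_mul_cancel, Units.val_one, Matrix.one_apply]
  have hK := hg y⁻¹ y
  rw [inv_mul_cancel, map_one, Module.End.one_apply, stdB_vtop_vtop, stdB_vtop_rhoG] at hK
  have h0 : mn (mK K (y⁻¹ * g * y)) (corner N (c j0)) (corner N (c j0)) = 0 := by
    apply mn_eq_zero_of_col (j := z)
    · rw [mem_corner]
      exact hj1
    · intro a ha
      rw [mem_corner] at ha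
      show algebraMap F K (((y⁻¹ * g * y : GL (Fin N) F) : Matrix (Fin N) (Fin N) F) a z) = 0
      rw [hcol, if_neg, map_zero]
      intro h
      rw [h] at ha
      simp only [l] at ha
      omega
  rw [Finset.prod_eq_zero (Finset.mem_univ j0) h0, mul_zero] at hK
  exact zero_ne_one hK

/-- diagonal entries agree -/
theorem KP_diag (c : Fin s → ℕ) (j0 : Fin s) (hj1 : 1 ≤ c j0) (hj2 : c j0 < N)
    (g : GL (Fin N) F) (hg : KP c K g) (i k : Fin N) :
    (g : Matrix (Fin N) (Fin N) F) i i = (g : Matrix (Fin N) (Fin N) F) k k := by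
  classical
  by_cases hik : k = i
  · rw [hik]
  have hdet : (Matrix.transvection k i (1 : F)).det ≠ 0 := by
    rw [Matrix.det_transvection_of_ne k i hik]
    exact one_ne_zero
  let h : GL (Fin N) F := Matrix.GeneralLinearGroup.mkOfDetNeZero (Matrix.transvection k i 1) hdet
  have hinv : ((h⁻¹ : GL (Fin N) F) : Matrix (Fin N) (Fin N) F) = Matrix.transvection k i (-1) := by
    have h1 : (h : Matrix (Fin N) (Fin N) F) * Matrix.transvection k i (-1) = 1 := by
      show Matrix.transvection k i (1 : F) * Matrix.transvection k i (-1) = 1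
      rw [Matrix.transvection_mul_transvection_same _ _ hik, add_neg_cancel, Matrix.transvection_zero]
    have h2 : ((h⁻¹ : GL (Fin N) F) : Matrix (Fin N) (Fin N) F) * (h : Matrix (Fin N) (Fin N) F)
        = 1 := by
      rw [← Units.val_mul, inv_mul_cancel, Units.val_one]
    calc ((h⁻¹ : GL (Fin N) F) : Matrix (Fin N) (Fin N) F)
        = ((h⁻¹ : GL (Fin N) F) : Matrix (Fin N) (Fin N) F) *
          ((h : Matrix (Fin N) (Fin N) F) * Matrix.transvection k i (-1)) := by
          rw [h1, mul_one]
      _ = _ := by rw [← mul_assoc, h2, one_mul]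
  have h3 := KP_offdiag c j0 hj1 hj2 _ (KP_conj c g h hg) hik
  rw [Units.val_mul, Units.val_mul, hinv] at h3
  have h4 : (h : Matrix (Fin N) (Fin N) F) = Matrix.transvection k i 1 := rfl
  rw [h4] at h3
  have hki : (g : Matrix (Fin N) (Fin N) F) k i = 0 := KP_offdiag c j0 hj1 hj2 g hg hik
  have hik' : (g : Matrix (Fin N) (Fin N) F) i k = 0 :=
    KP_offdiag c j0 hj1 hj2 g hg (Ne.symm hik)
  rw [Matrix.mul_transvection_apply_same, Matrix.transvection_mul_apply_same,
    Matrix.transvection_mul_apply_same] at h3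
  rw [hki, hik'] at h3
  have : (g : Matrix (Fin N) (Fin N) F) i i - (g : Matrix (Fin N) (Fin N) F) k k = 0 := by
    linear_combination h3
  exact sub_eq_zero.mp this

/-- **(K)**: the elements of the kernel are scalars, so they have odd order. -/
theorem condK [Fintype F] [CharP F 2] (c : Fin s → ℕ) (j0 : Fin s) (hj1 : 1 ≤ c j0)
    (hj2 : c j0 < N) (g : GL (Fin N) F) (hg : KP c K g) : Odd (orderOf g) := by
  classical
  have hN : 0 < N := by omega
  let z : Fin N := ⟨0, hN⟩
  set a : F := (g : Matrix (Fin N) (Fin N) F) z z with ha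
  have hsc : (g : Matrix (Fin N) (Fin N) F) = Matrix.diagonal (fun _ => a) := by
    ext i k
    by_cases hik : i = k
    · subst hik
      rw [Matrix.diagonal_apply_eq, ha]
      exact KP_diag c j0 hj1 hj2 g hg i z
    · rw [Matrix.diagonal_apply_ne _ hik]
      exact KP_offdiag c j0 hj1 hj2 g hg hik
  have ha0 : a ≠ 0 := by
    intro h0
    have h1 : (g : Matrix (Fin N) (Fin N) F) = 0 := by
      rw [hsc, h0]
      ext i k
      by_cases hik : i = k
      · subst hik
        simp
      · simp [Matrix.diagonal_apply_ne _ hik]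
    have h2 : (g : Matrix (Fin N) (Fin N) F) * ((g⁻¹ : GL (Fin N) F) : Matrix (Fin N) (Fin N) F)
        = 1 := by
      rw [← Units.val_mul, mul_inv_cancel, Units.val_one]
    rw [h1, zero_mul] at h2
    have := congrFun (congrFun h2 z) z
    simp at this
  have hpow : g ^ (Fintype.card F - 1) = 1 := by
    apply Units.ext
    rw [Units.val_pow_eq_pow_val, hsc, Matrix.diagonal_pow, Units.val_one]
    rw [← Matrix.diagonal_one]
    congr 1
    funext i
    rw [Pi.pow_apply, FiniteField.pow_card_sub_one_eq_one a ha0]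
  have hdvd : orderOf g ∣ Fintype.card F - 1 := orderOf_dvd_of_pow_eq_one hpow
  have heven : Fintype.card F % 2 = 0 :=
    FiniteField.even_card_of_char_two (ringChar.eq F 2 ▸ rfl)
  have hpos : 0 < Fintype.card F := Fintype.card_pos
  rw [← Nat.not_even_iff_odd]
  intro hev
  have h2 : 2 ∣ Fintype.card F - 1 := (even_iff_two_dvd.mp hev).trans hdvd
  omega

end MP_d81877_alF
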