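import Pool.Agent.Lib.MP_d81877_alF.Abstract

/-!
# MP_d81877_al, frame: the dual variant

Here the vectors `γ_j` are only required to define `G`-invariant functionals on `D ∩ D^⊥`.
-/

namespace Pool.Agent.MP_d81877_alF

variable {k : Type} [Field k]

/-- A functional on `D` vanishing on the radical of the form on `D` is given by an element
of `D`. -/
theorem exists_of_vanish {D : Type} [AddCommGroup D] [Module k D] [FiniteDimensional k D]
    (β : D →ₗ[k] D →ₗ[k] k) (φ : D →ₗ[k] k) (hφ : ∀ x, (∀ d, β d x = 0) → φ x = 0) :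
    ∃ d, ∀ x, φ x = β d x := by
  let W : Submodule k (Module.Dual k D) := LinearMap.range β
  have h1 : φ ∈ W.dualCoannihilator.dualAnnihilator := by
    rw [Submodule.mem_dualAnnihilator]
    intro x hx
    apply hφ
    intro d
    exact (Submodule.mem_dualCoannihilator (Φ := W) x).1 hx (β d) ⟨d, rfl⟩
  rw [Subspace.dualCoannihilator_dualAnnihilator_eq] at h1
  obtain ⟨d, hd⟩ := h1
  exact ⟨d, fun x => by rw [hd]⟩

variable [CharP k 2] [IsAlgClosed k] {G : Type} [Group G] [Finite G]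
  {T : Type} [AddCommGroup T] [Module k T] [FiniteDimensional k T]

/-- **The frame, dual variant.** The vectors `γ_j` only have to be invariant as functionals
on `D ∩ D^⊥`. -/
theorem frame_dual (ρ : Representation k G T) (B : T →ₗ[k] T →ₗ[k] k) (τ : G → G)
    (hτ : ∀ g h, τ (g * h) = τ h * τ g) (hττ : ∀ g, τ (τ g) = g)
    (hB : ∀ g u v, B (ρ g u) v = B u (ρ (τ g) v)) (v₀ : T)
    (hP : ∀ M : Submodule k T, (∀ g, ∀ m ∈ M, ρ g m ∈ M) →
      ∀ m ∈ M, m ∈ orbitSpan ρ v₀ → B m v₀ ≠ 0 → v₀ ∈ M)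
    (h00 : B v₀ v₀ ≠ 0)
    (hN : ∃ (g : G) (c : k), ρ g v₀ = c • v₀ ∧ c ≠ 1)
    (hK : ∀ g, (∀ x y, B v₀ (ρ (x * g * y) v₀) = B v₀ (ρ (x * y) v₀)) → Odd (orderOf g))
    {r : ℕ} (γ R : Fin r → T)
    (hγ : ∀ j g, ∀ x ∈ orbitSpan ρ v₀, (∀ d ∈ orbitSpan ρ v₀, B d x = 0) →
      B (γ j) (ρ g x) = B (γ j) x)
    (hR : ∀ i, R i ∈ orbitSpan ρ v₀)
    (hR' : ∀ i, ∀ d ∈ orbitSpan ρ v₀, B d (R i) = 0)
    (hpair : ∀ i j, B (γ j) (R i) = if i = j then 1 else 0) : Big r := by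
  refine frame ρ B τ hτ hττ hB v₀ hP h00 hN hK γ R ?_ hR hR' hpair
  intro j g
  let D := orbitSpan ρ v₀
  let β : D →ₗ[k] D →ₗ[k] k := LinearMap.compl₁₂ B D.subtype D.subtype
  have hβ : ∀ d x : D, β d x = B (d : T) (x : T) := fun d x => rfl
  let φ : D →ₗ[k] k := (B (ρ g (γ j) - γ j)).comp D.subtype
  have hφ : ∀ x : D, φ x = B (ρ g (γ j) - γ j) (x : T) := fun x => rfl
  obtain ⟨d, hd⟩ := exists_of_vanish β φ (by
    intro x hx
    rw [hφ, map_sub, LinearMap.sub_apply, hB, sub_eq_zero]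
    exact hγ j (τ g) x x.2 (fun d hd => hx ⟨d, hd⟩))
  refine ⟨d, d.2, fun d' hd' => ?_⟩
  have := hd ⟨d', hd'⟩
  rw [hφ, hβ] at this
  rw [map_sub B, LinearMap.sub_apply, this, sub_self]

end Pool.Agent.MP_d81877_alF
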