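import Mathlib
import Pool.Agent.Lib.MP_d81877_alF.Abstract
import Pool.Agent.Lib.MP_d81877_alF.Dual
import Pool.Agent.Lib.MP_d81877_alF.ConcK

/-!
MP_d81877_al, concrete frame (F4), part 5: the frame for `G = GL_N(F)` and the tensor space
with four columns.
-/

namespace MP_d81877_alF

open Finset Matrix Pool.Agent.MP_d81877_alF

variable {N : ℕ} {F K : Type} [Field F] [Fintype F] [CharP F 2] [Field K] [IsAlgClosed K]
  [CharP K 2] [Algebra F K]

/-- the submodule generated by the highest weight vector -/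
noncomputable def DD (N : ℕ) {s : ℕ} (F K : Type) [Field F] [Field K] [CharP K 2] [Algebra F K]
    (c : Fin s → ℕ) : Submodule K (TT N s K) :=
  orbitSpan (rhoG N s F K) (vtop N K c)

omit [Fintype F] [CharP F 2] [IsAlgClosed K] in
theorem DD_le_shape {s : ℕ} (c : Fin s → ℕ) (hc : ∀ j, c j ≤ N) : DD N F K c ≤ shape N K c := by
  apply Submodule.span_le.2
  rintro _ ⟨g, rfl⟩
  exact rhoG_mem_shape g c (vtop_mem_shape hc)

omit [Fintype F] [CharP F 2] [IsAlgClosed K] in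
theorem DD_stable {s : ℕ} (c : Fin s → ℕ) (g : GL (Fin N) F) {d : TT N s K}
    (hd : d ∈ DD N F K c) : rhoG N s F K g d ∈ DD N F K c :=
  orbitSpan_stable _ _ g hd

omit [CharP F 2] in
/-- an element of `Fˣ` different from one -/
theorem exists_unit_ne_one (h : 2 < Fintype.card F) : ∃ t : Fˣ, t ≠ 1 := by
  classical
  by_contra hcon
  push Not at hcon
  have : Subsingleton Fˣ := ⟨fun a b => by rw [hcon a, hcon b]⟩
  have h1 : Fintype.card Fˣ ≤ 1 := Fintype.card_le_one_iff_subsingleton.mpr this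
  rw [Fintype.card_units] at h1
  omega

/-- **The concrete frame**: `γ j` are invariant modulo `D + Dᗮ`. -/
theorem frame_concrete (c : Fin 4 → ℕ) (hc1 : ∀ j, 1 ≤ c j) (hcN : ∀ j, c j ≤ N) (j0 : Fin 4)
    (hj0 : c j0 < N) (hq : 4 * (N * N) < Fintype.card F - 1)
    {r : ℕ} (γ R : Fin r → TT N 4 K)
    (hγ : ∀ j (g : GL (Fin N) F), ∃ d ∈ DD N F K c, ∀ d' ∈ DD N F K c,
      stdB N 4 K (rhoG N 4 F K g (γ j) - γ j - d) d' = 0)
    (hR : ∀ i, R i ∈ DD N F K c)
    (hR' : ∀ i, ∀ d ∈ DD N F K c, stdB N 4 K d (R i) = 0)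
    (hpair : ∀ i j, stdB N 4 K (γ j) (R i) = if i = j then 1 else 0) : Big r := by
  have hN : 0 < N := by omega
  obtain ⟨t, ht⟩ := exists_unit_ne_one (F := F) (by
    have : 1 ≤ N * N := Nat.mul_pos hN hN
    omega)
  refine frame (rhoG N 4 F K) (stdB N 4 K) tau tau_mul tau_tau stdB_rhoG (vtop N K c) ?_ ?_ ?_ ?_
    γ R hγ hR hR' hpair
  · intro M hM m hm hmD hB
    exact condP c hcN hq M hM m hm (DD_le_shape c hcN hmD) hB
  · rw [stdB_vtop_vtop]
    exact one_ne_zero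
  · exact condN c hc1 hN t ht
  · intro g hg
    exact condK c j0 (hc1 j0) hj0 g hg

/-- **The concrete frame, dual form**: `γ j` gives an invariant functional on `D ∩ Dᗮ`. -/
theorem frame_dual_concrete (c : Fin 4 → ℕ) (hc1 : ∀ j, 1 ≤ c j) (hcN : ∀ j, c j ≤ N)
    (j0 : Fin 4) (hj0 : c j0 < N) (hq : 4 * (N * N) < Fintype.card F - 1)
    {r : ℕ} (γ R : Fin r → TT N 4 K)
    (hγ : ∀ j (g : GL (Fin N) F), ∀ x ∈ DD N F K c,
      (∀ d ∈ DD N F K c, stdB N 4 K d x = 0) →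
      stdB N 4 K (γ j) (rhoG N 4 F K g x) = stdB N 4 K (γ j) x)
    (hR : ∀ i, R i ∈ DD N F K c)
    (hR' : ∀ i, ∀ d ∈ DD N F K c, stdB N 4 K d (R i) = 0)
    (hpair : ∀ i j, stdB N 4 K (γ j) (R i) = if i = j then 1 else 0) : Big r := by
  have hN : 0 < N := by omega
  obtain ⟨t, ht⟩ := exists_unit_ne_one (F := F) (by
    have : 1 ≤ N * N := Nat.mul_pos hN hN
    omega)
  refine frame_dual (rhoG N 4 F K) (stdB N 4 K) tau tau_mul tau_tau stdB_rhoG (vtop N K c)
    ?_ ?_ ?_ ?_ γ R hγ hR hR' hpair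
  · intro M hM m hm hmD hB
    exact condP c hcN hq M hM m hm (DD_le_shape c hcN hmD) hB
  · rw [stdB_vtop_vtop]
    exact one_ne_zero
  · exact condN c hc1 hN t ht
  · intro g hg
    exact condK c j0 (hc1 j0) hj0 g hg

end MP_d81877_alF
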