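import Mathlib
import Pool.Agent.Lib.MP_d81877_alF.ConcFrame

/-!
MP_d81877_al, concrete frame (F4), part 6: invariance modulo `D + Dᗮ` has to be checked only on
transvections (and on diagonal matrices, where it is free for tensors of weight zero).
-/

namespace MP_d81877_alF

open Finset Matrix Pool.Agent.MP_d81877_alF

variable {N s : ℕ} {F K : Type} [Field F] [Field K] [CharP K 2] [Algebra F K]

/-- transvections as elements of the group -/
def tv (i j : Fin N) (h : i ≠ j) (a : F) : GL (Fin N) F :=
  Matrix.GeneralLinearGroup.mkOfDetNeZero (Matrix.transvection i j a)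
    (by rw [Matrix.det_transvection_of_ne i j h]; exact one_ne_zero)

theorem tv_val (i j : Fin N) (h : i ≠ j) (a : F) :
    ((tv i j h a : GL (Fin N) F) : Matrix (Fin N) (Fin N) F) = Matrix.transvection i j a := rfl

/-- a property of group elements which is closed under products holds everywhere if it holds for
diagonal matrices and transvections -/
theorem gen_induction (P : GL (Fin N) F → Prop) (hdiag : ∀ d : Fin N → Fˣ, P (dgl d))
    (htv : ∀ (i j : Fin N) (h : i ≠ j) (a : F), P (tv i j h a))
    (hmul : ∀ g h, P g → P h → P (g * h)) (g : GL (Fin N) F) : P g := by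
  have hg : (g : Matrix (Fin N) (Fin N) F).det ≠ 0 := by
    have := (Matrix.GeneralLinearGroup.det g).ne_zero
    exact this
  have key : ∀ h : (g : Matrix (Fin N) (Fin N) F).det ≠ 0,
      P (Matrix.GeneralLinearGroup.mkOfDetNeZero (g : Matrix (Fin N) (Fin N) F) h) := by
    apply Matrix.diagonal_transvection_induction_of_det_ne_zero
      (fun M => ∀ h : M.det ≠ 0, P (Matrix.GeneralLinearGroup.mkOfDetNeZero M h)) _ hg
    · intro D hD h
      have hD0 : ∀ i, D i ≠ 0 := by
        intro i hi
        apply hD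
        rw [Matrix.det_diagonal]
        exact Finset.prod_eq_zero (Finset.mem_univ i) hi
      have : Matrix.GeneralLinearGroup.mkOfDetNeZero (Matrix.diagonal D) h
          = dgl (fun i => Units.mk0 (D i) (hD0 i)) := by
        apply Units.ext
        rfl
      rw [this]
      exact hdiag _
    · intro t h
      have : Matrix.GeneralLinearGroup.mkOfDetNeZero t.toMatrix h = tv t.i t.j t.hij t.c := by
        apply Units.ext
        rfl
      rw [this]
      exact htv _ _ _ _
    · intro A B hA hB hPA hPB h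
      have : Matrix.GeneralLinearGroup.mkOfDetNeZero (A * B) h
          = Matrix.GeneralLinearGroup.mkOfDetNeZero A hA
            * Matrix.GeneralLinearGroup.mkOfDetNeZero B hB := by
        apply Units.ext
        rfl
      rw [this]
      exact hmul _ _ (hPA hA) (hPB hB)
  have h2 : Matrix.GeneralLinearGroup.mkOfDetNeZero (g : Matrix (Fin N) (Fin N) F) hg = g := by
    apply Units.ext
    rfl
  rw [← h2]
  exact key hg

/-- tensors of weight zero are fixed by the torus (four columns, twist `det⁻²`) -/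
theorem rhoG_dgl_of_weight (d : Fin N → Fˣ) (f : TT N s K)
    (hf : ∀ S, f S ≠ 0 → ∀ i : Fin N, (Finset.univ.filter (fun j => i ∈ S j)).card = 2) :
    rhoG N s F K (dgl d) f = f := by
  classical
  funext S
  rw [rhoG_dgl]
  by_cases h0 : f S = 0
  · rw [h0, mul_zero, mul_zero]
  · have h1 : (∏ j, ∏ i ∈ S j, algebraMap F K ((d i : Fˣ) : F))
        = (algebraMap F K ((∏ i, d i : Fˣ) : F)) ^ 2 := by
      have h2 : ∀ j, ∏ i ∈ S j, algebraMap F K ((d i : Fˣ) : F)
          = ∏ i, if i ∈ S j then algebraMap F K ((d i : Fˣ) : F) else 1 := by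
        intro j
        rw [Finset.prod_ite_mem, Finset.univ_inter]
      simp only [h2]
      rw [Finset.prod_comm]
      rw [Units.coe_prod, map_prod, ← Finset.prod_pow]
      apply Finset.prod_congr rfl
      intro i _
      rw [Finset.prod_ite, Finset.prod_const_one, mul_one, Finset.prod_const, hf S h0 i]
    rw [h1, ← mul_assoc, ← mul_pow, ← map_mul, ← Units.val_mul, inv_mul_cancel, Units.val_one,
      map_one, one_pow, one_mul]

/-- the orthogonal complement of `D` is stable -/
theorem perp_stable (c : Fin s → ℕ) (g : GL (Fin N) F) {u : TT N s K}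
    (hu : ∀ d ∈ DD N F K c, stdB N s K u d = 0) :
    ∀ d ∈ DD N F K c, stdB N s K (rhoG N s F K g u) d = 0 := by
  intro d hd
  rw [stdB_rhoG]
  exact hu _ (DD_stable c _ hd)

/-- **`hγ` on generators, first form** -/
theorem hgamma_of_gen (c : Fin s → ℕ) (γ : TT N s K)
    (hw : ∀ S, γ S ≠ 0 → ∀ i : Fin N, (Finset.univ.filter (fun j => i ∈ S j)).card = 2)
    (htv : ∀ (i j : Fin N) (h : i ≠ j) (a : F), ∃ d ∈ DD N F K c, ∀ d' ∈ DD N F K c,
      stdB N s K (rhoG N s F K (tv i j h a) γ - γ - d) d' = 0)
    (g : GL (Fin N) F) :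
    ∃ d ∈ DD N F K c, ∀ d' ∈ DD N F K c, stdB N s K (rhoG N s F K g γ - γ - d) d' = 0 := by
  refine gen_induction (fun g => ∃ d ∈ DD N F K c, ∀ d' ∈ DD N F K c,
    stdB N s K (rhoG N s F K g γ - γ - d) d' = 0) ?_ htv ?_ g
  · intro d
    refine ⟨0, Submodule.zero_mem _, ?_⟩
    intro d' _
    rw [rhoG_dgl_of_weight d γ hw]
    simp
  · rintro g h ⟨d1, hd1, h1⟩ ⟨d2, hd2, h2⟩
    refine ⟨d1 + rhoG N s F K g d2, Submodule.add_mem _ hd1 (DD_stable c g hd2), ?_⟩
    intro d' hd'
    have h3 := perp_stable c g h2 d' hd'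
    have h4 := h1 d' hd'
    have h5 : rhoG N s F K (g * h) γ - γ - (d1 + rhoG N s F K g d2)
        = rhoG N s F K g (rhoG N s F K h γ - γ - d2) + (rhoG N s F K g γ - γ - d1) := by
      rw [map_mul, Module.End.mul_apply, map_sub, map_sub]
      abel
    rw [h5, map_add, LinearMap.add_apply, h3, h4, add_zero]

/-- **`hγ` on generators, dual form** -/
theorem hgamma_dual_of_gen (c : Fin s → ℕ) (γ : TT N s K)
    (hw : ∀ S, γ S ≠ 0 → ∀ i : Fin N, (Finset.univ.filter (fun j => i ∈ S j)).card = 2)
    (htv : ∀ (i j : Fin N) (h : i ≠ j) (a : F), ∀ x ∈ DD N F K c,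
      (∀ d ∈ DD N F K c, stdB N s K d x = 0) →
      stdB N s K γ (rhoG N s F K (tv i j h a) x) = stdB N s K γ x)
    (g : GL (Fin N) F) : ∀ x ∈ DD N F K c, (∀ d ∈ DD N F K c, stdB N s K d x = 0) →
      stdB N s K γ (rhoG N s F K g x) = stdB N s K γ x := by
  refine gen_induction (fun g => ∀ x ∈ DD N F K c, (∀ d ∈ DD N F K c, stdB N s K d x = 0) →
      stdB N s K γ (rhoG N s F K g x) = stdB N s K γ x) ?_ htv ?_ g
  · intro d x _ _
    have : tau (dgl d : GL (Fin N) F) = dgl d := by
      apply Units.ext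
      show (Matrix.diagonal (fun i => ((d i : Fˣ) : F)))ᵀ = _
      rw [Matrix.diagonal_transpose]
      rfl
    rw [← this, ← stdB_rhoG, rhoG_dgl_of_weight d γ hw]
  · intro g h hg hh x hx hx'
    rw [map_mul, Module.End.mul_apply]
    rw [hg _ (DD_stable c h hx) ?_, hh x hx hx']
    intro d hd
    rw [← tau_tau h, ← stdB_rhoG]
    exact hx' _ (DD_stable c _ hd)

end MP_d81877_alF
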